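import Mathlib

set_option autoImplicit false

namespace Pool.Agent.Results.MP_11d8b4_co.Counter

open SimpleGraph

/-- l is the vertex list of a simple path from u to v -/
def IsPathL {V : Type} (G : SimpleGraph V) (u v : V) (l : List V) : Prop :=
  l.IsChain G.Adj ∧ l.Nodup ∧ l.head? = some u ∧ l.getLast? = some v

/-- total weight of the edges of a path -/
def wt {V : Type} (w : Sym2 V → ℝ) (l : List V) : ℝ :=
  ((l.zip l.tail).map fun p => w s(p.1, p.2)).sum

/-- a consistent path system -/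
def Consistent {V : Type} (G : SimpleGraph V) (P : V → V → List V) : Prop :=
  (∀ u v, u ≠ v → IsPathL G u v (P u v) ∧ P v u = (P u v).reverse) ∧
    ∀ u v x y, u ≠ v → x ≠ y → x ∈ P u v → y ∈ P u v → P x y <:+: P u v ∨ P y x <:+: P u v

/-- each chosen path is the unique lightest simple path between its ends -/
def Induces {V : Type} (G : SimpleGraph V) (w : Sym2 V → ℝ) (P : V → V → List V) : Prop :=
  ∀ u v, u ≠ v → ∀ l, IsPathL G u v l → l ≠ P u v → wt w (P u v) < wt w l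

def tab : Fin 8 → Fin 8 → ℤ :=
  ![![0, 3, 0, 0, 0, 0, 2, 0], ![3, 0, 4, 3, 0, 5, 0, 0], ![0, 4, 0, 0, 2, 0, 0, 0],
    ![0, 3, 0, 0, 0, 0, 0, 5], ![0, 0, 2, 0, 0, 0, 4, 0], ![0, 5, 0, 0, 0, 0, 0, 4],
    ![2, 0, 0, 0, 4, 0, 0, -2], ![0, 0, 0, 5, 0, 4, -2, 0]]

lemma tab_symm : ∀ a b, tab a b = tab b a := by decide

def G : SimpleGraph (Fin 8) where
  Adj a b := tab a b ≠ 0
  symm := ⟨fun a b h => by rwa [tab_symm]⟩
  loopless := ⟨by decide⟩

instance : DecidableRel G.Adj := fun a b => inferInstanceAs (Decidable (tab a b ≠ 0))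

instance (u v : Fin 8) (l : List (Fin 8)) : Decidable (IsPathL G u v l) := by
  unfold IsPathL; infer_instance

def P : Fin 8 → Fin 8 → List (Fin 8) :=
  ![![[0], [0, 1], [0, 1, 2], [0, 6, 7, 3], [0, 6, 4], [0, 6, 7, 5], [0, 6], [0, 6, 7]],
    ![[1, 0], [1], [1, 2], [1, 3], [1, 2, 4], [1, 5], [1, 0, 6], [1, 0, 6, 7]],
    ![[2, 1, 0], [2, 1], [2], [2, 1, 3], [2, 4], [2, 4, 6, 7, 5], [2, 4, 6], [2, 4, 6, 7]],
    ![[3, 7, 6, 0], [3, 1], [3, 1, 2], [3], [3, 7, 6, 4], [3, 1, 5], [3, 7, 6], [3, 7]],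
    ![[4, 6, 0], [4, 2, 1], [4, 2], [4, 6, 7, 3], [4], [4, 6, 7, 5], [4, 6], [4, 6, 7]],
    ![[5, 7, 6, 0], [5, 1], [5, 7, 6, 4, 2], [5, 1, 3], [5, 7, 6, 4], [5], [5, 7, 6], [5, 7]],
    ![[6, 0], [6, 0, 1], [6, 4, 2], [6, 7, 3], [6, 4], [6, 7, 5], [6], [6, 7]],
    ![[7, 6, 0], [7, 6, 0, 1], [7, 6, 4, 2], [7, 3], [7, 6, 4], [7, 5], [7, 6], [7]]]

def wz (l : List (Fin 8)) : ℤ := ((l.zip l.tail).map fun p => tab p.1 p.2).sum

def w : Sym2 (Fin 8) → ℝ := Sym2.lift ⟨fun a b => (tab a b : ℝ), fun a b => by simp only [tab_symm a b]⟩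

lemma wt_w (l : List (Fin 8)) : wt w l = wz l := by
  simp [wt, wz, w, Int.cast_list_sum, List.map_map, Function.comp_def]

def ext : ℕ → List (List (Fin 8))
  | 0 => (List.finRange 8).map fun x => [x]
  | k + 1 => (ext k).flatMap fun l =>
      ((List.finRange 8).filter fun x => x ∉ l ∧ tab x (l.headD 0) ≠ 0).map (· :: l)

lemma mem_ext : ∀ (k : ℕ) (l : List (Fin 8)), l.length = k + 1 → l.IsChain G.Adj → l.Nodup →
    l ∈ ext k
  | _, [], h, _, _ => by simp at h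
  | 0, [x], _, _, _ => by simp [ext]
  | 0, _ :: _ :: _, h, _, _ => by simp at h
  | k + 1, [_], h, _, _ => by simp at h
  | k + 1, x :: y :: l, h, h1, h2 => by
    rw [List.isChain_cons_cons] at h1
    rw [List.nodup_cons] at h2
    rw [ext, List.mem_flatMap]
    refine ⟨y :: l, mem_ext k _ (by simpa using h) h1.2 h2.2, List.mem_map.2 ⟨x, ?_, rfl⟩⟩
    rw [List.mem_filter]
    exact ⟨List.mem_finRange x, decide_eq_true ⟨h2.1, h1.1⟩⟩

lemma chk : ∀ k < 8, ∀ l ∈ ext k, l = P (l.headD 0) (l.getLastD 0) ∨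
    wz (P (l.headD 0) (l.getLastD 0)) < wz l := by decide +kernel

lemma ind : Induces G w P := by
  rintro u v - l ⟨h1, h2, h3, h4⟩ hne
  have hl : l.length ≤ 8 := by simpa using h2.length_le_card
  have h0 : l ≠ [] := by rintro rfl; simp at h3
  have hp := List.length_pos_iff.2 h0
  have := chk (l.length - 1) (by omega) l (mem_ext _ l (by omega) h1 h2)
  rw [List.headD_eq_head?_getD, List.getLastD_eq_getLast?, h3, h4] at this
  rw [wt_w, wt_w]
  exact_mod_cast this.resolve_left hne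

def sub (u v x : Fin 8) : Prop :=
  ∀ y, x ≠ y → x ∈ P u v → y ∈ P u v → P x y <:+: P u v ∨ P y x <:+: P u v

instance (u v x : Fin 8) : Decidable (sub u v x) := by unfold sub; infer_instance

lemma cons : Consistent G P := by
  have h : ∀ u v x, sub u v x := by decide +kernel
  exact ⟨by decide +kernel, fun u v x y _ => h u v x y⟩

lemma conn : G.Connected := by
  have a : ∀ d : Fin 8, d = 0 ∨ G.Adj 0 d ∨ ∃ x, G.Adj 0 x ∧ (G.Adj x d ∨ ∃ y, G.Adj x y ∧
    G.Adj y d) := by decide +kernel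
  refine (connected_iff_exists_forall_reachable G).2 ⟨0, fun d => ?_⟩
  rcases a d with rfl | h1 | ⟨x, h1, h2 | ⟨y, h2, h3⟩⟩
  exacts [.rfl, h1.reachable, h1.reachable.trans h2.reachable,
    (h1.reachable.trans h2.reachable).trans h3.reachable]

theorem result : ∃ (V : Type) (_ : Fintype V) (G : SimpleGraph V) (P : V → V → List V),
    G.Connected ∧ Consistent G P ∧ (∃ w : Sym2 V → ℝ, Induces G w P) ∧
    ¬ ∃ w : Sym2 V → ℝ, (∀ e ∈ G.edgeSet, 0 < w e) ∧ Induces G w P := by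
  refine ⟨Fin 8, inferInstance, G, P, conn, cons, ⟨w, ind⟩, ?_⟩
  rintro ⟨x, hx, h⟩
  have h1 : wt x [2, 4, 6, 7, 5] < _ := h 2 5 (by decide) [2, 1, 5] (by decide) (by decide)
  have h2 : wt x [2, 1, 0] < _ := h 2 0 (by decide) [2, 4, 6, 0] (by decide) (by decide)
  have h3 : wt x [0, 6, 7, 3] < _ := h 0 3 (by decide) [0, 1, 3] (by decide) (by decide)
  have h4 : wt x [3, 1, 5] < _ := h 3 5 (by decide) [3, 7, 5] (by decide) (by decide)
  have h5 := hx s(6, 7) (by decide)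
  simp only [wt, List.tail, List.zip_cons_cons, List.zip_nil_right, List.map, List.sum_cons,
    List.sum_nil] at h1 h2 h3 h4
  rw [Sym2.eq_swap (a := 1) (b := 0), Sym2.eq_swap (a := 6) (b := 0)] at h2
  rw [Sym2.eq_swap (a := 3) (b := 1), Sym2.eq_swap (a := 3) (b := 7)] at h4
  linarith

end Pool.Agent.Results.MP_11d8b4_co.Counter
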